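import Pool.Agent.Run7.h201.CTR.Ball6
import Pool.Agent.Results.MP_5df2c5_lc.FiniteFlips

set_option autoImplicit false

/-!
# Vaught's conjecture for structures of finite width over a definable ball system

A ball system on a set is a ternary relation `D a b c` (`a` is in the ball spanned by `b` and `c`)
such that the ball spanned by `b` and `c` contains `b` and `c` and the ball spanned by any two of its
points, and two balls which have a point in common are comparable by inclusion. The balls form a tree
of arbitrary order type. Examples: the balls of an ultrametric space, nested equivalence relations,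
`C`-relations, `D`-relations (unrooted trees) with one point as a parameter, the sets of all elements
above the common lower bounds of two elements of a tree order (a linear order, for example).

Consider structures with a definable ball system, definable binary relations `E 0, E 1, …`
(countably many) and unary predicates (countably many, arbitrary) such that the relations `E k` have
finite width: for every intersection `S` of balls the points can be labelled by finitely many labels
(the labels are not part of the structure, they depend on `S` and their number is not bounded) such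
that

* points of `S` with the same label have the same relations to all points outside of `S`, and
* if `S` is the ball spanned by `a` and `a'` then the labels of `a` and `a'` decide whether `E k a a'`
  holds.

(This is the condition in the definition of NLC-width or clique-width, for a tree of arbitrary order
type.) We prove Vaught's conjecture, perfect-set form,

(1) for every first-order theory in a countable language (relations and functions of any arity) whose
models on `ℕ` are of this kind, where the ball system, the relations `E k` and the predicates are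
given by formulas with finitely many parameters which determine the model; there may be countably
many such systems of formulas, and it depends on the model which system and which parameters have to
be used.

(2) The class of all structures with one ternary and countably many binary relations of this kind
belongs to the family `Tame` of the starting result `MP_5df2c5_lc.FiniteFlips`. So Vaught's conjecture
holds for all isomorphism-invariant Borel classes of expansions of such structures by unary
predicates, in particular for all sentences of `L_ω₁ω`, and for all classes obtained from this class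
(and from the other members of `Tame`) by ordered sums, generalised sums, tree sums, infinite prime
quotients, countable unions, and equivariant Borel codings with finitely many parameters.

(3) shows that this contains the case of tree orders along which the relations have finite width
(labellings of the elements above each downward closed chain), and that `C`-relations, and
`D`-relations with one parameter, define ball systems. (4) is a general sufficient condition: if
every `E k` is one of finitely many relations which are definable in monadic second-order logic over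
the tree of all points and balls, with arbitrary hidden sets of points and balls as parameters (the
sets are not part of the structure and may be different in each structure), then the relations `E k`
have finite width.

Special cases: Rubin's theorem on linear orders with unary predicates and Steel's theorem on trees
with unary predicates (no relations); `C`-relations, `D`-relations and ultrametric spaces with unary
predicates and relations of finite width, for instance all relations which depend, for two different
points, on the ball spanned by them only. The starting result `TreeSums` is about `C`-relations such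
that the cones are modules for all other relations (one label).

The proof. (a) Consider tree preorders with meets, with binary and unary relations, where the
binary relations hold between comparable elements only, such that the atomic types of the pairs
compose: for `x ≤ c ≤ y` the type of `(x, y)` is determined by those of `(x, c)` and `(c, y)`; and
assume that every cut of a chain is pointed. The dichotomy holds for the Borel classes of such
structures (`CTR.dich2`). (b) If there is a finite labelling of the elements above `A` then there is
a canonical equivalence relation on them, with finitely many classes, which has the two properties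
(`CTR.WD.EV_det`, `CTR.WD.EV_fin`). (c) A tree with relations of finite width is coded by the tree
preorder of all pairs consisting of an intersection of two principal chains and of a finite sequence
of representatives of all classes above it; the way in which the classes pass from one chain to a
smaller one is described by countably many relations, which compose, and finiteness implies that the
cuts are pointed (`CTR.T3.t3`). (d) A structure with a ball system is coded by the tree of its points
and balls, in both directions and preserving isomorphism (`CTR.BALL`). (e) The class is coanalytic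
(compactness of the space of labellings), so parameters can be handled by Novikov's separation
theorem (`Pool.Agent.TH425.FF` of the starting tree). (f) For (4): the rank `n` monadic types of a
tree which is the disjoint union of the elements below or beside the cut and of the cones above it
are determined by the types of the parts (composition method), where infinitely many parts are
handled by an Ehrenfeucht-Fraisse game (`CTR.MSO`).
-/

namespace Pool.Agent.Results.MP_5df2c5_lc.BallSystems

open FirstOrder FirstOrder.Language

/-- `D a b c` (`a` is in the ball spanned by `b` and `c`) is a ball system. -/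
structure BallSystem (D : ℕ → ℕ → ℕ → Prop) : Prop where
  left : ∀ b c, D b b c
  symm : ∀ a b c, D a b c → D a c b
  incl : ∀ b c d e, D d b c → D e b c → ∀ a, D a d e → D a b c
  comparable : ∀ b c d e, (∃ a, D a b c ∧ D a d e) →
    (∀ a, D a b c → D a d e) ∨ (∀ a, D a d e → D a b c)

/-- `S` is an intersection of balls. -/
def Region (D : ℕ → ℕ → ℕ → Prop) (S : Set ℕ) : Prop :=
  ∃ F : Set (ℕ × ℕ), S = {a | ∀ p ∈ F, D a p.1 p.2}

/-- Points of `S` with the same label have the same relations `E k` to all points outside of `S`. -/
def OutsideByLabel (E : ℕ → ℕ → ℕ → Prop) (S : Set ℕ) {n : ℕ} (l : ℕ → Fin n) : Prop :=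
  ∀ a ∈ S, ∀ b ∈ S, l a = l b → ∀ c, c ∉ S → ∀ k, (E k a c ↔ E k b c) ∧ (E k c a ↔ E k c b)

/-- For different points which span `S` the labels decide whether `E k` holds. -/
def SpanByLabel (D : ℕ → ℕ → ℕ → Prop) (E : ℕ → ℕ → ℕ → Prop) (S : Set ℕ) {n : ℕ}
    (l : ℕ → Fin n) : Prop :=
  ∀ a a' b b', a ≠ a' → b ≠ b' → S = {x | D x a a'} → S = {x | D x b b'} →
    l a = l b → l a' = l b' → ∀ k, (E k a a' ↔ E k b b')

/-- The relations `E k` have finite width over `D`: for every intersection of balls there is a
finite labelling with the two properties. The labelling is not part of the structure. -/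
def FiniteWidth (D : ℕ → ℕ → ℕ → Prop) (E : ℕ → ℕ → ℕ → Prop) : Prop :=
  ∀ S : Set ℕ, Region D S →
    ∃ (n : ℕ) (l : ℕ → Fin n), OutsideByLabel E S l ∧ SpanByLabel D E S l

/-! ### Structures and theories -/

/-- The ternary relation defined by a formula with parameters `p`. -/
def Rel3 {L : FirstOrder.Language.{0, 0}} (S : L.Structure ℕ) {m : ℕ}
    (φ : L.Formula (Fin m ⊕ Fin 3)) (p : Fin m → ℕ) (a b c : ℕ) : Prop :=
  @Formula.Realize L ℕ S _ φ (Sum.elim p ![a, b, c])

/-- The binary relation defined by a formula with parameters `p`. -/
def Rel2 {L : FirstOrder.Language.{0, 0}} (S : L.Structure ℕ) {m : ℕ}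
    (φ : L.Formula (Fin m ⊕ Fin 2)) (p : Fin m → ℕ) (a b : ℕ) : Prop :=
  @Formula.Realize L ℕ S _ φ (Sum.elim p ![a, b])

/-- The unary relation defined by a formula with parameters `p`. -/
def Rel1 {L : FirstOrder.Language.{0, 0}} (S : L.Structure ℕ) {m : ℕ}
    (φ : L.Formula (Fin m ⊕ Fin 1)) (p : Fin m → ℕ) (a : ℕ) : Prop :=
  @Formula.Realize L ℕ S _ φ (Sum.elim p ![a])

open Pool.Agent.Results.MP_5df2c5_lc.FiniteFlips (Str UVaught Vaught Tame triple pair)

/-- One ternary relation (number `0`) and binary relations. -/
def vocabulary : ℕ → ℕ := fun i => if i = 0 then 3 else 2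

/-- The ternary relation is a ball system over which the binary relations have finite width. -/
def BallClass (x : Str vocabulary) : Prop :=
  BallSystem (fun a b c => x 0 (triple a b c) = true) ∧
    FiniteWidth (fun a b c => x 0 (triple a b c) = true)
      (fun k a b => x (k + 1) (pair a b) = true)

/-! ### Tree orders -/

/-- `r` is a strict tree order of `ℕ`: a strict order such that the predecessors of each element are
comparable. -/
def Tree (r : ℕ → ℕ → Prop) : Prop :=
  (∀ a, ¬ r a a) ∧ (∀ a b c, r a b → r b c → r a c) ∧
    ∀ a b c, r a c → r b c → r a b ∨ a = b ∨ r b a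

/-- The elements above all elements of `A`. -/
def Above (r : ℕ → ℕ → Prop) (A : Set ℕ) : Set ℕ := {b | ∀ a ∈ A, r a b}

/-- `a` and `b` are in the same cone above `A`: an element above `A` is below or equal to both. -/
def SameCone (r : ℕ → ℕ → Prop) (A : Set ℕ) (a b : ℕ) : Prop :=
  ∃ c ∈ Above r A, (c = a ∨ r c a) ∧ (c = b ∨ r c b)

/-- The relations `E k` have finite width along the tree order `r`: for every downward closed chain
`A` there is a finite labelling of the elements above `A` such that the labels decide the relations
to the elements which are not above `A` and the relations between different cones above `A`. -/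
def FiniteWidthAlong (r : ℕ → ℕ → Prop) (E : ℕ → ℕ → ℕ → Prop) : Prop :=
  ∀ A : Set ℕ, (∀ a ∈ A, ∀ b, r b a → b ∈ A) → (∀ a ∈ A, ∀ b ∈ A, a = b ∨ r a b ∨ r b a) →
    ∃ (n : ℕ) (l : ℕ → Fin n),
      (∀ a ∈ Above r A, ∀ b ∈ Above r A, l a = l b → ∀ c, c ∉ Above r A →
        ∀ k, (E k a c ↔ E k b c) ∧ (E k c a ↔ E k c b)) ∧
      ∀ a ∈ Above r A, ∀ a' ∈ Above r A, ∀ b ∈ Above r A, ∀ b' ∈ Above r A,
        ¬ SameCone r A a a' → ¬ SameCone r A b b' → l a = l b → l a' = l b' →
          ∀ k, (E k a a' ↔ E k b b')

/-- The ball system of a tree order: the elements which are above or equal to all common lower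
bounds of `b` and `c`. -/
def TreeBall (r : ℕ → ℕ → Prop) (a b c : ℕ) : Prop :=
  ∀ d, (d = b ∨ r d b) → (d = c ∨ r d c) → (d = a ∨ r d a)

/-- `C a b c` (the points `b` and `c` are together in a cone which does not contain `a`) is a
`C`-relation. -/
structure CRelation (C : ℕ → ℕ → ℕ → Prop) : Prop where
  symm : ∀ a b c, C a b c → C a c b
  asymm : ∀ a b c, C a b c → ¬ C b a c
  branch : ∀ a b c, C a b c → ∀ d, C a d c ∨ C d b c

/-- `D a b c d` (the paths from `a` to `b` and from `c` to `d` are disjoint) is a `D`-relation. -/
structure DRelation (D : ℕ → ℕ → ℕ → ℕ → Prop) : Prop where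
  symm : ∀ a b c d, D a b c d → D b a c d ∧ D a b d c ∧ D c d a b
  asymm : ∀ a b c d, D a b c d → ¬ D a c b d
  branch : ∀ a b c d, D a b c d → ∀ e, D e b c d ∨ D a b c e

/-! ### Monadic second-order logic over the tree of points and balls -/

/-- Formulas of monadic second-order logic with `N` element variables and `N` set variables. -/
inductive MonadicFormula (N : ℕ) : Type
  | lt (i j : Fin N) : MonadicFormula N
  | eq (i j : Fin N) : MonadicFormula N
  | mem (i k : Fin N) : MonadicFormula N
  | not (φ : MonadicFormula N) : MonadicFormula N
  | and (φ ψ : MonadicFormula N) : MonadicFormula N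
  | exElt (i : Fin N) (φ : MonadicFormula N) : MonadicFormula N
  | exSet (k : Fin N) (φ : MonadicFormula N) : MonadicFormula N

/-- Satisfaction in `(α, r)`; `v` interprets the element variables, `P` the set variables. -/
def Satisfies {α : Type} (r : α → α → Prop) {N : ℕ} :
    MonadicFormula N → (Fin N → α) → (Fin N → Set α) → Prop
  | .lt i j, v, _ => r (v i) (v j)
  | .eq i j, v, _ => v i = v j
  | .mem i k, v, P => v i ∈ P k
  | .not φ, v, P => ¬ Satisfies r φ v P
  | .and φ ψ, v, P => Satisfies r φ v P ∧ Satisfies r ψ v P
  | .exElt i φ, v, P => ∃ x : α, Satisfies r φ (Function.update v i x) P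
  | .exSet k φ, v, P => ∃ X : Set α, Satisfies r φ v (Function.update P k X)

/-- Points and balls. -/
abbrev Nodes (D : ℕ → ℕ → ℕ → Prop) : Type := ℕ ⊕ {S : Set ℕ // ∃ b c, S = {a | D a b c}}

/-- The tree order on points and balls: a ball is below its points and below the smaller balls. -/
def Below (D : ℕ → ℕ → ℕ → Prop) : Nodes D → Nodes D → Prop
  | Sum.inr S, Sum.inr S' => S'.1 ⊂ S.1
  | Sum.inr S, Sum.inl a => a ∈ S.1
  | Sum.inl _, _ => False

/-- The first variable is `a`, the others are `b`. -/
def assign {D : ℕ → ℕ → ℕ → Prop} {N : ℕ} (a b : ℕ) (i : Fin N) : Nodes D :=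
  if i.val = 0 then Sum.inl a else Sum.inl b

/-- the translation to the formulas of the library file -/
def tr {N : ℕ} : MonadicFormula N → Pool.Agent.Run7.h201.CTR.MSO.Fo N
  | .lt i j => .lt i j
  | .eq i j => .eq i j
  | .mem i k => .mem i k
  | .not φ => .not (tr φ)
  | .and φ ψ => .and (tr φ) (tr ψ)
  | .exElt i φ => .exElt i (tr φ)
  | .exSet k φ => .exSet k (tr φ)

theorem sat_tr {α : Type} (r : α → α → Prop) {N : ℕ} (φ : MonadicFormula N) :
    ∀ (v : Fin N → α) (P : Fin N → Set α),
      Pool.Agent.Run7.h201.CTR.MSO.Sat r (tr φ) v P ↔ Satisfies r φ v P := by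
  induction φ with
  | lt i j => exact fun _ _ => Iff.rfl
  | eq i j => exact fun _ _ => Iff.rfl
  | mem i k => exact fun _ _ => Iff.rfl
  | not φ ih => exact fun v P => not_congr (ih v P)
  | and φ ψ ih1 ih2 => exact fun v P => and_congr (ih1 v P) (ih2 v P)
  | exElt i φ ih => exact fun v P => exists_congr fun x => ih _ _
  | exSet k φ ih => exact fun v P => exists_congr fun x => ih _ _

theorem bs_of {D : ℕ → ℕ → ℕ → Prop} (h : BallSystem D) :
    Pool.Agent.Run7.h201.CTR.BALL.BS D := ⟨h.left, h.symm, h.incl, h.comparable⟩

theorem bs_of_c {C : ℕ → ℕ → ℕ → Prop} (h : CRelation C) :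
    BallSystem (fun a b c => ¬ C a b c) := by
  refine ⟨fun b c h1 => h.asymm _ _ _ h1 h1, fun a b c h1 h2 => h1 (h.symm _ _ _ h2), ?_, ?_⟩
  · intro b c d e hd he a ha hc
    -- `a` is outside of the ball of `b` and `c`
    have h1 : C a d c := (h.branch _ _ _ hc d).resolve_right hd
    have h2 : C a e c := (h.branch _ _ _ hc e).resolve_right he
    rcases h.branch _ _ _ (h.symm _ _ _ h1) e with h3 | h3
    · exact ha (h.symm _ _ _ h3)
    · rcases h.branch _ _ _ (h.symm _ _ _ h2) d with h4 | h4
      · exact ha h4
      · exact h.asymm _ _ _ (h.symm _ _ _ h3) (h.symm _ _ _ h4)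
  · rintro b c d e ⟨a, h1, h2⟩
    by_contra hcon
    rw [not_or] at hcon
    obtain ⟨hc1, hc2⟩ := hcon
    rw [not_forall] at hc1 hc2
    obtain ⟨x, hx⟩ := hc1
    obtain ⟨y, hy⟩ := hc2
    rw [Classical.not_imp, not_not] at hx hy
    obtain ⟨hx1, hx2⟩ := hx
    obtain ⟨hy1, hy2⟩ := hy
    -- `x` in the first ball only, `y` in the second ball only
    have k1 : C x a e := (h.branch _ _ _ hx2 a).resolve_right h2
    have k2 : C x y e := (h.branch _ _ _ hx2 y).resolve_right hy1
    have k3 : C y a c := (h.branch _ _ _ hy2 a).resolve_right h1
    have k4 : C y x c := (h.branch _ _ _ hy2 x).resolve_right hx1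
    -- `C x a y` and `C y a x`
    have k5 : C x a y := by
      rcases h.branch _ _ _ (h.symm _ _ _ k1) y with h3 | h3
      · exact h.symm _ _ _ h3
      · rcases h.branch _ _ _ (h.symm _ _ _ k2) a with h4 | h4
        · exact h4
        · exact absurd (h.symm _ _ _ h4) (h.asymm _ _ _ (h.symm _ _ _ h3))
    have k6 : C y a x := by
      rcases h.branch _ _ _ (h.symm _ _ _ k3) x with h3 | h3
      · exact h.symm _ _ _ h3
      · rcases h.branch _ _ _ (h.symm _ _ _ k4) a with h4 | h4
        · exact h4
        · exact absurd (h.symm _ _ _ h4) (h.asymm _ _ _ (h.symm _ _ _ h3))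
    exact h.asymm _ _ _ (h.symm _ _ _ k5) (h.symm _ _ _ k6)

theorem bs_of_d {D : ℕ → ℕ → ℕ → ℕ → Prop} (h : DRelation D) (p : ℕ) :
    BallSystem (fun a b c => ¬ D p a b c) := by
  refine bs_of_c (C := fun a b c => D p a b c) ⟨fun a b c h1 => (h.symm _ _ _ _ h1).2.1,
    fun a b c h1 => h.asymm _ _ _ _ h1, fun a b c h1 d => ?_⟩
  rcases h.branch _ _ _ _ (h.symm _ _ _ _ (h.symm _ _ _ _ h1).1).2.1 d with h2 | h2
  · exact Or.inr (h.symm _ _ _ _ (h.symm _ _ _ _ h2).1).2.1
  · exact Or.inl (h.symm _ _ _ _ (h.symm _ _ _ _ h2).1).2.1

theorem result :
    -- (1) theories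
    (∀ (L : FirstOrder.Language.{0, 0}), Countable L.Symbols → ∀ (T : L.Theory) (m : ℕ → ℕ)
      (β : ∀ i, L.Formula (Fin (m i) ⊕ Fin 3)) (ψ : ∀ i, ℕ → L.Formula (Fin (m i) ⊕ Fin 2))
      (θ : ∀ i, ℕ → L.Formula (Fin (m i) ⊕ Fin 1)),
      (∀ S : L.Structure ℕ, @Theory.Model L ℕ S T → ∃ (i : ℕ) (p : Fin (m i) → ℕ),
        BallSystem (Rel3 S (β i) p) ∧ FiniteWidth (Rel3 S (β i) p) (fun k => Rel2 S (ψ i k) p)) →
      (∀ (i : ℕ) (p : Fin (m i) → ℕ) (S S' : L.Structure ℕ), @Theory.Model L ℕ S T →
        @Theory.Model L ℕ S' T → Rel3 S (β i) p = Rel3 S' (β i) p →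
          (∀ k, Rel2 S (ψ i k) p = Rel2 S' (ψ i k) p) →
          (∀ k, Rel1 S (θ i k) p = Rel1 S' (θ i k) p) → S = S') →
      (∃ g : ℕ → L.Structure ℕ, ∀ S : L.Structure ℕ, @Theory.Model L ℕ S T →
          ∃ n : ℕ, Nonempty (@FirstOrder.Language.Equiv L ℕ ℕ S (g n))) ∨
      (∃ f : (ℕ → Bool) → L.Structure ℕ, (∀ x : ℕ → Bool, @Theory.Model L ℕ (f x) T) ∧
        (∀ x y : ℕ → Bool, Nonempty (@FirstOrder.Language.Equiv L ℕ ℕ (f x) (f y)) → x = y) ∧
        (∀ (n : ℕ) (R : L.Relations n) (a : Fin n → ℕ),
          IsClopen {x : ℕ → Bool | @Structure.RelMap L ℕ (f x) n R a}) ∧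
        (∀ (n : ℕ) (F : L.Functions n) (a : Fin n → ℕ) (b : ℕ),
          IsOpen {x : ℕ → Bool | @Structure.funMap L ℕ (f x) n F a = b}))) ∧
    -- (2) Borel classes
    (Tame vocabulary BallClass ∧ UVaught BallClass ∧ Vaught BallClass) ∧
    -- (3) tree orders, `C`-relations, `D`-relations
    ((∀ (r : ℕ → ℕ → Prop) (E : ℕ → ℕ → ℕ → Prop), Tree r → FiniteWidthAlong r E →
      BallSystem (TreeBall r) ∧ FiniteWidth (TreeBall r) E) ∧
    (∀ C : ℕ → ℕ → ℕ → Prop, CRelation C → BallSystem (fun a b c => ¬ C a b c)) ∧
    (∀ D : ℕ → ℕ → ℕ → ℕ → Prop, DRelation D → ∀ p,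
      BallSystem (fun a b c => ¬ D p a b c))) ∧
    -- (4) monadic second-order definable relations
    (∀ (D : ℕ → ℕ → ℕ → Prop) (E : ℕ → ℕ → ℕ → Prop) (N : ℕ) (P : Fin N → Set (Nodes D))
      (Φ : List (MonadicFormula N)), BallSystem D →
      (∀ k, ∃ φ ∈ Φ, ∀ a b, E k a b ↔ Satisfies (Below D) φ (assign a b) P) →
      FiniteWidth D E) := by
  have hBS : ∀ D : ℕ → ℕ → ℕ → Prop, BallSystem D ↔ Pool.Agent.Run7.h201.CTR.BALL.BS D := fun D =>
    ⟨bs_of, fun h => ⟨h.left, h.symm, h.incl, h.lam⟩⟩
  refine ⟨?_, ?_, ⟨?_, ?_, ?_⟩, ?_⟩
  · intro L hL T m β ψ θ h1 h2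
    refine Pool.Agent.Run7.h201.CTR.BALL.theories hL T m β ψ θ ?_ ?_
    · intro i p S S' hS hS' k1 k2 k3
      refine h2 i p S S' hS hS' ?_ (fun k => ?_) (fun k => ?_)
      · funext a b c
        exact propext (k1 a b c)
      · funext a b
        exact propext (k2 k a b)
      · funext a
        exact propext (k3 k a)
    · intro S hS
      obtain ⟨i, p, h3, h4⟩ := h1 S hS
      exact ⟨i, p, bs_of h3, h4⟩
  · have e : (BallClass : Str vocabulary → Prop) = Pool.Agent.Run7.h201.CTR.BALL.VB := by
      funext x
      exact propext (and_congr (hBS _) Iff.rfl)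
    have h : Tame vocabulary BallClass := by
      rw [e]
      exact Tame.known _ _ Pool.Agent.Run7.h201.CTR.BALL.coan_VB
        Pool.Agent.Run7.h201.CTR.BALL.inv_VB Pool.Agent.Run7.h201.CTR.BALL.vcu_VB
    exact ⟨h, Pool.Agent.Results.MP_5df2c5_lc.FiniteFlips.result _ _ h⟩
  · intro r E hr hE
    have hb := Pool.Agent.Run7.h201.CTR.BALL.bs_tree hr.2.1 hr.2.2
    exact ⟨⟨hb.left, hb.symm, hb.incl, hb.lam⟩,
      Pool.Agent.Run7.h201.CTR.BALL.bw_tree hr.1 hr.2.1 hr.2.2 hE⟩
  · exact fun C hC => bs_of_c hC
  · exact fun D hD p => bs_of_d hD p
  · intro D E N P Φ hD hE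
    have hnl : Pool.Agent.Run7.h201.CTR.BALL.nlt D = Below D := by
      funext x y
      rcases x with a | S <;> rcases y with b | S' <;> rfl
    refine Pool.Agent.Run7.h201.CTR.BALL.bw_mso (bs_of hD) P (Φ.map tr) fun k => ?_
    obtain ⟨φ, h1, h2⟩ := hE k
    refine ⟨tr φ, List.mem_map.2 ⟨φ, h1, rfl⟩, fun a b => ?_⟩
    rw [h2, hnl, sat_tr]
    exact Iff.rfl

end Pool.Agent.Results.MP_5df2c5_lc.BallSystems
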