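import Pool.Agent.H834V.Adapt
import Pool.Agent.Run7.h271.NE.Main

set_option autoImplicit false

/-!
# Vaught's conjecture for two-variable logic over nested equivalence relations

Let `L` be a countable relational language and let `θ 0, …, θ (k - 1)` be formulas of the two-variable
fragment of `L_ω₁ω`. Let `T` be a first-order theory and `Ψ` a countable set of two-variable formulas
such that, in the models of `T` and `Ψ` with universe `ℕ`, these formulas define equivalence relations
`θ 0 ⊆ θ 1 ⊆ …`, and such that each axiom of `T` is equivalent to a two-variable formula in the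
structures with universe `ℕ` in which they do so. (Transitivity is not a two-variable property.) Then
the perfect-set form of Vaught's conjecture holds for `T` and `Ψ`.

The proof: the levels of a pair are determined by its data (its atomic type, and the two-variable
types that its elements require). If two elements `x`, `y` of level `m + 1` have refined labels
(labels, with the labels in each of their classes) that occur twice in a model, at levels at most
`m + 1`, and if there are two different data of this level for the labels of `x` and `y`, then one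
puts in infinitely many copies of a class around `x` and of one around `y`, with an arbitrary
bipartite graph between the copies of `x` and those of `y`; this gives perfectly many models.
Otherwise all pairs that do not contain an element that is unique in a class (a relative king) are
determined by their level and their labels, and the models are classified by a recursion along the
levels, each invariant being countably valued unless there are perfectly many models.
-/

namespace Pool.Agent.Results.MP_5df2c5_lc.NestedEquivalences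

open FirstOrder Set Pool.Agent.H834V
open Pool.Agent.H565R2.FO2 (Interp Code toI ofI toI_ofI Iso F2 Rl Md subs mem_subs)
open Pool.Agent.H565R2.LO2 (PerfK)
open Pool.Agent.Run7.h271.NE (E Nest MdE KE)

/-- The structure satisfies the universal closure of the two-variable formula `φ`. -/
def Holds {L : FirstOrder.Language.{0, 0}} (S : L.Structure ℕ) (φ : F2 L) : Prop :=
  ∀ x y : ℕ, Rl (rel S) φ x y

/-- The two-variable formulas `θ j` define nested equivalence relations, `θ 0` the finest one. -/
def Nested {L : FirstOrder.Language.{0, 0}} {k : ℕ} (S : L.Structure ℕ) (θ : Fin k → F2 L) : Prop :=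
  (∀ j, Equivalence (fun x y : ℕ => Rl (rel S) (θ j) x y)) ∧
    ∀ i j, i ≤ j → ∀ x y : ℕ, Rl (rel S) (θ i) x y → Rl (rel S) (θ j) x y

theorem nested_iff {L : FirstOrder.Language.{0, 0}} {k : ℕ} (S : L.Structure ℕ)
    (θ : Fin k → F2 L) : Nested S θ ↔ Nest θ (rel S) := by
  constructor
  · rintro ⟨h1, h2⟩ j
    cases j with
    | zero =>
      refine ⟨fun x => rfl, fun x y h => ?_, fun x y z h h' => ?_, fun x y h h0 => ?_⟩
      · have h' : x = y := h
        exact h'.symm
      · have e1 : x = y := h
        have e2 : y = z := h'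
        exact e1.trans e2
      · have h' : x = y := h
        rw [← h']
        exact (h1 _).refl x
    | succ j =>
      refine ⟨fun x h => (h1 _).refl x, fun x y h h0 => (h1 _).symm (h h0),
        fun x y z h h' h0 => (h1 _).trans (h h0) (h' h0), fun x y h h0 => ?_⟩
      exact h2 ⟨j, by omega⟩ ⟨j + 1, h0⟩ (by simp) x y (h (by omega))
  · intro h
    have hE : ∀ (j : Fin k) x y, Rl (rel S) (θ j) x y ↔ E θ (rel S) (j.1 + 1) x y := by
      intro j x y
      exact ⟨fun h _ => h, fun h => h j.2⟩
    refine ⟨fun j => ⟨fun x => ?_, fun h1 => ?_, fun h1 h2 => ?_⟩, fun i j hij x y h1 => ?_⟩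
    · exact (hE j _ _).2 (h.rfl' _ _)
    · exact (hE j _ _).2 (h.symm ((hE j _ _).1 h1))
    · exact (hE j _ _).2 (h.trans ((hE j _ _).1 h1) ((hE j _ _).1 h2))
    · exact (hE j _ _).2 (h.mono (Nat.succ_le_succ hij) ((hE i _ _).1 h1))

/-- A valid formula with the subformula `φ`. -/
def tau {L : FirstOrder.Language.{0, 0}} (φ : F2 L) : F2 L :=
  .neg (.inf fun n => if n = 0 then φ else .neg φ)

theorem tau_holds {L : FirstOrder.Language.{0, 0}} (φ : F2 L) {M : Type} (I : Interp L M)
    (x y : M) : Rl I (tau φ) x y := by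
  intro h
  have h0 : Rl I φ x y := h 0
  have h1 : ¬ Rl I φ x y := h 1
  exact h1 h0

theorem tau_subs {L : FirstOrder.Language.{0, 0}} (φ : F2 L) : subs φ ⊆ subs (tau φ) := by
  intro ψ hψ
  exact Or.inr (Or.inr (mem_iUnion.2 ⟨0, hψ⟩))

theorem result : ∀ (L : FirstOrder.Language.{0, 0}), Countable L.Symbols → L.IsRelational →
    ∀ (k : ℕ) (θ : Fin k → F2 L) (T : L.Theory) (Ψ : Set (F2 L)), Ψ.Countable →
      (∀ σ ∈ T, ∃ φ : F2 L, ∀ S : L.Structure ℕ, Nested S θ →
        (@FirstOrder.Language.Sentence.Realize L ℕ S σ ↔ Holds S φ)) →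
      (∀ S : L.Structure ℕ, @FirstOrder.Language.Theory.Model L ℕ S T → (∀ ψ ∈ Ψ, Holds S ψ) →
        Nested S θ) →
      (∃ g : ℕ → L.Structure ℕ, ∀ S : L.Structure ℕ,
          @FirstOrder.Language.Theory.Model L ℕ S T → (∀ ψ ∈ Ψ, Holds S ψ) →
            ∃ n : ℕ, Nonempty (@FirstOrder.Language.Equiv L ℕ ℕ S (g n))) ∨
      (∃ f : (ℕ → Bool) → L.Structure ℕ,
          (∀ x : ℕ → Bool, @FirstOrder.Language.Theory.Model L ℕ (f x) T ∧
            ∀ ψ ∈ Ψ, Holds (f x) ψ) ∧
          (∀ x y : ℕ → Bool,
              Nonempty (@FirstOrder.Language.Equiv L ℕ ℕ (f x) (f y)) → x = y) ∧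
          (∀ (n : ℕ) (Q : L.Relations n) (a : Fin n → ℕ),
              IsClopen {x : ℕ → Bool | @FirstOrder.Language.Structure.RelMap L ℕ (f x) n Q a})) := by
  intro L hL hR k θ T Ψ hΨ hT hN
  classical
  have hRc : ∀ n, Countable (L.Relations n) := countable_relations hL
  have hsent : Countable L.Sentence := countable_sentences hL
  choose F hF using hT
  let A : Set (F2 L) := insert (F2.eq false false)
    (Ψ ∪ {φ | ∃ σ, ∃ hσ : σ ∈ T, F σ hσ = φ} ∪ Set.range (fun j => tau (θ j)))
  have hAc : A.Countable := by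
    refine Set.Countable.insert _ ((hΨ.union ?_).union (countable_range _))
    have : {φ | ∃ σ, ∃ hσ : σ ∈ T, F σ hσ = φ} =
        Set.range (fun σ : T => F σ.1 σ.2) := by
      ext φ
      constructor
      · rintro ⟨σ, hσ, h⟩; exact ⟨⟨σ, hσ⟩, h⟩
      · rintro ⟨σ, h⟩; exact ⟨σ.1, σ.2, h⟩
    rw [this]
    exact countable_range _
  obtain ⟨e, he⟩ := hAc.exists_eq_range ⟨_, mem_insert _ _⟩
  have hmod : ∀ S : L.Structure ℕ, (Holds S (F2.inf e) ∧ Nested S θ) ↔
      (@FirstOrder.Language.Theory.Model L ℕ S T ∧ ∀ ψ ∈ Ψ, Holds S ψ) := by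
    intro S
    have h0 : Holds S (F2.inf e) ↔ ∀ φ ∈ A, Holds S φ := by
      rw [he]
      constructor
      · rintro h _ ⟨n, rfl⟩ x y
        exact h x y n
      · intro h x y n
        exact h (e n) ⟨n, rfl⟩ x y
    rw [h0]
    constructor
    · rintro ⟨h, hn⟩
      refine ⟨⟨fun σ hσ => ((hF σ hσ) S hn).2 ?_⟩,
        fun ψ hψ => h ψ (mem_insert_of_mem _ (Or.inl (Or.inl hψ)))⟩
      exact h _ (mem_insert_of_mem _ (Or.inl (Or.inr ⟨σ, hσ, rfl⟩)))
    · rintro ⟨h2, h3⟩
      have hn := hN S h2 h3
      refine ⟨?_, hn⟩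
      rintro ψ (rfl | (hψ | ⟨σ, hσ, rfl⟩) | ⟨j, rfl⟩)
      · intro x y; rfl
      · exact h3 ψ hψ
      · exact ((hF σ hσ) S hn).1 (h2.realize_of_mem σ hσ)
      · exact fun x y => tau_holds _ _ x y
  have hε : ∀ j, subs (θ j) ⊆ subs (F2.inf e) := by
    intro j
    have h1 : tau (θ j) ∈ A := mem_insert_of_mem _ (Or.inr ⟨j, rfl⟩)
    rw [he] at h1
    obtain ⟨n, hn⟩ := h1
    refine (tau_subs (θ j)).trans ?_
    rw [← hn]
    exact (subset_iUnion (fun n => subs (e n)) n).trans (subset_insert _ _)
  have hK : ∀ S : L.Structure ℕ, code S ∈ KE θ (F2.inf e) ↔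
      (Holds S (F2.inf e) ∧ Nested S θ) := by
    intro S
    show toI (code S) ∈ MdE θ (F2.inf e) ↔ _
    rw [show toI (code S) = rel S from toI_ofI _, nested_iff]
    exact Iff.rfl
  have hdich : (∃ g : ℕ → Code L, ∀ c ∈ KE θ (F2.inf e), ∃ n, Iso c (g n)) ∨
      PerfK (KE θ (F2.inf e)) := Pool.Agent.Run7.h271.NE.main θ (F2.inf e) hε
  rcases adapt hR (KE θ (F2.inf e)) hdich with ⟨g, hg⟩ | ⟨f, hf1, hf2, hf3⟩
  · left
    exact ⟨g, fun S h2 h3 => hg S ((hK S).2 ((hmod S).2 ⟨h2, h3⟩))⟩
  · right
    refine ⟨f, fun x => ?_, hf2, hf3⟩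
    exact (hmod _).1 ((hK (f x)).1 (hf1 x))

end Pool.Agent.Results.MP_5df2c5_lc.NestedEquivalences
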