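import Pool.Agent.Run7.h271.EF.FO

set_option autoImplicit false

/-!
# Vaught's conjecture for theories without the equality symbol

Vaught's conjecture, perfect-set form, holds for all first-order theories, in an arbitrary countable
language (with function symbols and constants), whose axioms do not contain the equality symbol, and
more generally for all Borel classes of countable structures that are closed under images and inverse
images for strict surjective homomorphisms. (The models are counted up to isomorphism, as usual. The
Borel classes contain the classes of countable models of the sentences of `L_ω₁ω` without equality.)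

The proof: call two points indistinguishable if no relation distinguishes them. If there is a function
symbol of positive arity, then one codes a set of numbers in the sizes of the fibres of the unary
function `x ↦ F(x, …, x)` of a model all of whose points have infinitely many copies. Otherwise, if
some model has infinitely many classes of indistinguishable points, then one codes it in the sizes of
the classes. If all models have finitely many classes and there are infinitely many constants, one
codes it in the equalities between the constants of one class. Otherwise the models are given by a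
finite reduced structure and finitely many cardinal numbers, and the finite reduced structures that
occur form a Borel set.
-/

namespace Pool.Agent.Results.MP_5df2c5_lc.NoEquality

open Pool.Agent.Run7.h271.EF

/-- `h` is a strict surjective homomorphism from `S` to `S'`: it is surjective, commutes with the
functions, and a tuple is in a relation of `S` if and only if its image is in the relation of `S'`. -/
def IsStrict {L : FirstOrder.Language.{0, 0}} (S S' : L.Structure ℕ) (h : ℕ → ℕ) : Prop :=
  Function.Surjective h ∧
  (∀ (n : ℕ) (F : L.Functions n) (a : Fin n → ℕ),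
    h (@FirstOrder.Language.Structure.funMap L ℕ S n F a) =
      @FirstOrder.Language.Structure.funMap L ℕ S' n F (h ∘ a)) ∧
  ∀ (n : ℕ) (R : L.Relations n) (a : Fin n → ℕ),
    @FirstOrder.Language.Structure.RelMap L ℕ S n R a ↔
      @FirstOrder.Language.Structure.RelMap L ℕ S' n R (h ∘ a)

/-- The class `K` of structures with universe `ℕ` is Borel: the set of the pairs `M` of families of
functions and of relations such that the structure `toS M` is in `K` is a Borel set in the product
space `Str L ℕ`. -/
def IsBorel {L : FirstOrder.Language.{0, 0}} (K : Set (L.Structure ℕ)) : Prop :=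
  @MeasurableSet (Str L ℕ) (borel (Str L ℕ)) {M | toS M ∈ K}

/-- The class `K` of structures with universe `ℕ` has countably many isomorphism types, or some
continuous family of structures in `K`, indexed by the Cantor space, consists of pairwise
non-isomorphic structures (this is the alternative in the frozen statement). -/
def CountableOrPerfect {L : FirstOrder.Language.{0, 0}} (K : Set (L.Structure ℕ)) : Prop :=
  (∃ g : ℕ → L.Structure ℕ, ∀ S ∈ K,
      ∃ n : ℕ, Nonempty (@FirstOrder.Language.Equiv L ℕ ℕ S (g n))) ∨
  (∃ f : (ℕ → Bool) → L.Structure ℕ,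
      (∀ x : ℕ → Bool, f x ∈ K) ∧
      (∀ x y : ℕ → Bool, Nonempty (@FirstOrder.Language.Equiv L ℕ ℕ (f x) (f y)) → x = y) ∧
      (∀ (n : ℕ) (R : L.Relations n) (a : Fin n → ℕ),
        IsClopen {x : ℕ → Bool | @FirstOrder.Language.Structure.RelMap L ℕ (f x) n R a}) ∧
      (∀ (n : ℕ) (F : L.Functions n) (a : Fin n → ℕ) (b : ℕ),
        IsOpen {x : ℕ → Bool | @FirstOrder.Language.Structure.funMap L ℕ (f x) n F a = b}))

/-- **Theorem.** Let `L` be a countable language. (1) The alternative holds for the Borel classes of
structures that are closed under images and inverse images for strict surjective homomorphisms.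
(2) In particular it holds for the first-order theories whose class of models with universe `ℕ` is
closed in this way, and (3) for all first-order theories whose axioms do not contain the equality
symbol. -/
theorem result (L : FirstOrder.Language.{0, 0}) (hL : Countable L.Symbols) :
    (∀ K : Set (L.Structure ℕ), IsBorel K →
      (∀ (S S' : L.Structure ℕ) (h : ℕ → ℕ), IsStrict S S' h → (S ∈ K ↔ S' ∈ K)) →
      CountableOrPerfect K) ∧
    (∀ T : L.Theory,
      (∀ (S S' : L.Structure ℕ) (h : ℕ → ℕ), IsStrict S S' h →
        (@FirstOrder.Language.Theory.Model L ℕ S T ↔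
          @FirstOrder.Language.Theory.Model L ℕ S' T)) →
      CountableOrPerfect {S : L.Structure ℕ | @FirstOrder.Language.Theory.Model L ℕ S T}) ∧
    (∀ T : L.Theory, (∀ φ ∈ T, EqFree φ) →
      (∃ g : ℕ → L.Structure ℕ, ∀ S : L.Structure ℕ,
          @FirstOrder.Language.Theory.Model L ℕ S T →
            ∃ n : ℕ, Nonempty (@FirstOrder.Language.Equiv L ℕ ℕ S (g n))) ∨
      (∃ f : (ℕ → Bool) → L.Structure ℕ,
          (∀ x : ℕ → Bool, @FirstOrder.Language.Theory.Model L ℕ (f x) T) ∧
          (∀ x y : ℕ → Bool,
              Nonempty (@FirstOrder.Language.Equiv L ℕ ℕ (f x) (f y)) → x = y) ∧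
          (∀ (n : ℕ) (R : L.Relations n) (a : Fin n → ℕ),
              IsClopen {x : ℕ → Bool | @FirstOrder.Language.Structure.RelMap L ℕ (f x) n R a}) ∧
          (∀ (n : ℕ) (F : L.Functions n) (a : Fin n → ℕ) (b : ℕ),
              IsOpen {x : ℕ → Bool |
                @FirstOrder.Language.Structure.funMap L ℕ (f x) n F a = b}))) := by
  have h1 : ∀ K : Set (L.Structure ℕ), IsBorel K →
      (∀ (S S' : L.Structure ℕ) (h : ℕ → ℕ), IsStrict S S' h → (S ∈ K ↔ S' ∈ K)) →
      CountableOrPerfect K := by
    intro K hB hK
    have h2 : StrictClosed {M : Str L ℕ | toS M ∈ K} := by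
      intro M N h hMN
      refine hK _ _ h ⟨hMN.surj, hMN.fn, fun n R a => ?_⟩
      show M.2 n R a = true ↔ N.2 n R (h ∘ a) = true
      rw [hMN.rel]
    rcases adapt _ (main hL hB h2) with ⟨g, hg⟩ | ⟨f, hf1, hf2, hf3, hf4⟩
    · refine Or.inl ⟨g, fun S hS => hg S ?_⟩
      show toS (ofS S) ∈ K
      rwa [to_of]
    · refine Or.inr ⟨f, fun x => ?_, hf2, hf3, hf4⟩
      obtain ⟨M, hM, h3⟩ := hf1 x
      rw [h3]
      exact hM
  have h2 : ∀ T : L.Theory,
      (∀ (S S' : L.Structure ℕ) (h : ℕ → ℕ), IsStrict S S' h →
        (@FirstOrder.Language.Theory.Model L ℕ S T ↔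
          @FirstOrder.Language.Theory.Model L ℕ S' T)) →
      CountableOrPerfect {S : L.Structure ℕ | @FirstOrder.Language.Theory.Model L ℕ S T} :=
    fun T hT => h1 _ (meas_theory hL T) hT
  refine ⟨h1, h2, fun T hT => h2 T fun S S' h hS => ?_⟩
  have h3 : Strict (ofS S) (ofS S') h := by
    refine ⟨hS.1, hS.2.1, fun n R a => Bool.eq_iff_iff.2 ?_⟩
    rw [of_rel, of_rel]
    exact hS.2.2 n R a
  have h4 : ∀ φ ∈ T, (@FirstOrder.Language.Sentence.Realize L ℕ S φ ↔
      @FirstOrder.Language.Sentence.Realize L ℕ S' φ) := by
    intro φ hφ
    have h5 : ∀ (v : Empty → ℕ) (xs : Fin 0 → ℕ),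
        (@FirstOrder.Language.BoundedFormula.Realize L ℕ S Empty 0 φ v xs ↔
          @FirstOrder.Language.BoundedFormula.Realize L ℕ S' Empty 0 φ (h ∘ v) (h ∘ xs)) := by
      intro v xs
      have h6 := form_real h3 φ (hT φ hφ) v xs
      rwa [to_of, to_of] at h6
    refine (h5 _ _).trans (Iff.of_eq ?_)
    congr 1
    · exact Subsingleton.elim _ _
    · exact Subsingleton.elim _ _
  constructor
  · intro h5
    exact @FirstOrder.Language.Theory.Model.mk L ℕ S' T fun φ hφ => (h4 φ hφ).1
      (@FirstOrder.Language.Theory.realize_sentence_of_mem L ℕ S T h5 φ hφ)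
  · intro h5
    exact @FirstOrder.Language.Theory.Model.mk L ℕ S T fun φ hφ => (h4 φ hφ).2
      (@FirstOrder.Language.Theory.realize_sentence_of_mem L ℕ S' T h5 φ hφ)

end Pool.Agent.Results.MP_5df2c5_lc.NoEquality
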