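import Pool.Agent.Run7.h271.TV.Conv

/-!
# Vaught's conjecture and three-variable axioms

Every first-order theory `T` in a countable language `L` (with function symbols and constants) is
translated to a theory `Ts (T ∪ L.infiniteTheory)` in a language `Ls L` with unary and binary relation
symbols only, all of whose axioms are of the form `∀ x ∀ y ∀ z θ` or `∀ x ∀ y ∃ z θ` with `θ`
quantifier-free, such that the countable-or-perfect alternative holds for the one theory if and only if
it holds for the other. So Vaught's conjecture, in the perfect-set form and for all countable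
languages, is equivalent to its restriction to the theories with such axioms.

The elements of the models of the translated theory are the finite tuples of elements of a model of
`T`, and further elements, which are in no relation. The unary symbol `U n` is for the tuples of length
`n`, the unary symbol `V n φ` for those that satisfy the formula `φ`, and the binary symbol
`q n t k s` for the pairs of tuples of lengths `n` and `k` such that the value of the term `t` at the
first one is the value of the term `s` at the second one. In the axioms, three variables are enough:
the only axioms of the form `∀ x ∀ y ∃ z θ` with an essential use of both variables `x` and `y` say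
that a tuple can be prolonged by an element.
-/

set_option autoImplicit false

namespace Pool.Agent.Results.MP_5df2c5_lc.ThreeVariableAxioms

open FirstOrder Pool.Agent.Run7.h271.TV

/-- the language has only unary and binary relation symbols -/
def UnaryBinary (L : FirstOrder.Language.{0, 0}) : Prop :=
  (∀ n, IsEmpty (L.Functions n)) ∧ ∀ n, n ≠ 1 → n ≠ 2 → IsEmpty (L.Relations n)

/-- All axioms of the theory are of the form `∀ x ∀ y ∀ z θ` or `∀ x ∀ y ∃ z θ` with `θ`
quantifier-free. -/
def ThreeVariable {L : FirstOrder.Language.{0, 0}} (T : L.Theory) : Prop :=
  ∀ σ ∈ T, ∃ θ : L.BoundedFormula Empty 3, θ.IsQF ∧ (σ = θ.all.all.all ∨ σ = θ.ex.all.all)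

theorem result :
    -- (1) the translation of the theories
    (∀ (L : FirstOrder.Language.{0, 0}), Countable L.Symbols → ∀ T : L.Theory,
      Countable (Ls L).Symbols ∧ UnaryBinary (Ls L) ∧ ThreeVariable (Ts (T ∪ L.infiniteTheory)) ∧
      (Alternative (Ts (T ∪ L.infiniteTheory)) ↔ Alternative T)) ∧
    -- (2) the equivalence of the conjectures
    ((∀ (L : FirstOrder.Language.{0, 0}), Countable L.Symbols → ∀ T : L.Theory, Alternative T) ↔
      (∀ (L : FirstOrder.Language.{0, 0}), Countable L.Symbols → UnaryBinary L →
        ∀ T : L.Theory, ThreeVariable T → Alternative T)) := by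
  have h1 : ∀ (L : FirstOrder.Language.{0, 0}), Countable L.Symbols → ∀ T : L.Theory,
      Countable (Ls L).Symbols ∧ UnaryBinary (Ls L) ∧ ThreeVariable (Ts (T ∪ L.infiniteTheory)) ∧
      (Alternative (Ts (T ∪ L.infiniteTheory)) ↔ Alternative T) := fun L hL T =>
    ⟨Ls_countable L hL, ⟨fun n => Ls_rel L n, Ls_arity L⟩, Ts_form _,
      ⟨transfer T, transfer_conv hL T⟩⟩
  refine ⟨h1, fun h L hL _ T _ => h L hL T, fun h L hL T => ?_⟩
  obtain ⟨h2, h3, h4, h5⟩ := h1 L hL T
  exact h5.1 (h (Ls L) h2 h3 _ h4)

end Pool.Agent.Results.MP_5df2c5_lc.ThreeVariableAxioms
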